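import Pool.Agent.Lib.Helper77.Disc.Defs
import Pool.Agent.Lib.Helper77.Disc.PartG

/-!
# The discriminant exponent of the associated-form contravariant is 1

Problem MP_ee1e03_al, Q1: `p(n, d) = 1` for all `n ≥ 2` and `d ≥ 3`.

Outline.  Put `ρ = n (d - 2)`.  For a nondegenerate form `f` the degree `ρ` part of the Milnor
algebra is one-dimensional and spanned by the Hessian (`PartA` - `PartB`: the Hessian is not in the
Jacobian ideal by a determinant argument comparing with `(z_1 ^ N, …, z_n ^ N)`, and the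
one-dimensionality comes from the Bezoutian).  For every choice `κ` of `dim - 1` multiples of
partial derivatives in degree `ρ`, let `D_κ` be the determinant formed by them and the Hessian of
the generic form.  Then all the `μ_i` are fractions with denominator `D_κ`, and a form is degenerate
iff all the `D_κ` vanish at it.  Hence the reduced denominator of `μ_i` is, up to a constant, a
power of the discriminant dividing every `D_κ`.  For the Macaulay choice of `κ` the restriction of
`D_κ` to the line `s z_n ^ d + φ` has degree at most `(d - 1) ^ (n - 1)` in `s`, while for suitable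
`φ` there are `(d - 1) ^ (n - 1)` different `s` for which the form is degenerate.  So the square of
the discriminant does not divide `D_κ`.  On the other hand `μ_i` is nonzero and homogeneous of
degree `-n` in `f`, so it is not a polynomial.
-/

set_option autoImplicit false

open MvPolynomial

namespace Pool.Agent.Results.MP_ee1e03_al.DiscriminantExponent

open Pool.Agent.Lib.Helper77.Disc

/-- Uniqueness and existence of `μ_i(f)`. -/
theorem existsUnique_mu {n d : ℕ} (hd : 3 ≤ d) (f : MvPolynomial (Fin n) ℂ)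
    (hf : f.IsHomogeneous d) (hnd : ¬ IsDegenerate f) (i : Expo n (n * (d - 2))) :
    ∃! c : ℂ, IsMu f i c := by
  obtain ⟨c, hc⟩ := exists_sub_hessianDet_mem f d (by omega) hf hnd (monomial i.1 1)
    (isHomogeneous_monomial _ i.2)
  refine ⟨c, hc, ?_⟩
  intro c' hc'
  by_contra hne
  have h1 := Ideal.sub_mem _ hc hc'
  have h2 : (monomial i.1 1 - C c * hessianDet f - (monomial i.1 1 - C c' * hessianDet f) :
      MvPolynomial (Fin n) ℂ) = C (c' - c) * hessianDet f := by
    rw [C_sub]
    ring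
  rw [h2] at h1
  apply hessianDet_notMem f d (by omega) hf hnd
  have := Ideal.mul_mem_left (jacobianIdeal f) (C (c' - c)⁻¹) h1
  rwa [← mul_assoc, ← C_mul, inv_mul_cancel₀ (sub_ne_zero.2 hne), C_1, one_mul] at this

theorem isMu_mu {n d : ℕ} (hd : 3 ≤ d) (f : MvPolynomial (Fin n) ℂ)
    (hf : f.IsHomogeneous d) (hnd : ¬ IsDegenerate f) (i : Expo n (n * (d - 2))) :
    IsMu f i (mu f i) :=
  Classical.epsilon_spec (existsUnique_mu hd f hf hnd i).exists

/-- The reduced denominator divides the discriminant. -/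
theorem exists_numerator {n d : ℕ} (hn : 2 ≤ n) (hd : 3 ≤ d) (Δ : CoeffRing n d)
    (hΔ : IsDiscriminant Δ) (i : Expo n (n * (d - 2))) :
    ∃ Q : CoeffRing n d, ∀ f : MvPolynomial (Fin n) ℂ, f.IsHomogeneous d → ¬ IsDegenerate f →
      atForm Δ f * mu f i = atForm Q f := by
  obtain ⟨m, rfl⟩ : ∃ m, n = m + 1 := ⟨n - 1, by omega⟩
  have hd2 : 2 ≤ d := by omega
  obtain ⟨e, he⟩ : ∃ e, e + (d - 1) = (m + 1) * (d - 2) := ⟨_, arith hn hd⟩
  have hκ₀ := genDet_mac_ne_zero (n := m + 1) (d := d) hd2 rfl he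
  obtain ⟨D', N', hD'0, hD'dvd, -, hD'⟩ := exists_reduced hd2 rfl he _ hκ₀ i
  have hΔ0 : Δ ≠ 0 := hΔ.1.ne_zero
  -- write `D'` as a power of `Δ` times a unit
  obtain ⟨k, E, hE, hDE⟩ := WfDvdMonoid.max_power_factor' hD'0 hΔ.1.not_isUnit
  have hEunit : IsUnit E := by
    by_contra hE'
    have hE0 : E ≠ 0 := by
      rintro rfl
      exact hE (dvd_zero _)
    obtain ⟨π, hπ, hπE⟩ := WfDvdMonoid.exists_irreducible_factor hE' hE0
    have hπD : π ∣ D' := by
      rw [hDE]
      exact hπE.mul_left _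
    have hZ : ∀ f : MvPolynomial (Fin (m + 1)) ℂ, f.IsHomogeneous d → atForm π f = 0 →
        atForm Δ f = 0 := by
      intro f hf h0
      rw [hΔ.2 f hf]
      by_contra hnd
      obtain ⟨κ, hκ⟩ := exists_det_ne_zero (e := e) hd2 rfl he f hf hnd
      apply hκ
      rw [← atForm_genDet κ f hf]
      obtain ⟨W, hW⟩ := hπD.trans (hD'dvd κ)
      rw [hW, atForm_mul, h0, zero_mul]
    have hπΔ := dvd_of_vanishing π Δ hπ hZ
    have hassoc : Associated π Δ := (hπ.dvd_irreducible_iff_associated hΔ.1).1 hπΔ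
    exact hE (hassoc.symm.dvd.trans hπE)
  have hk : k ≤ 1 := by
    by_contra hk
    push Not at hk
    have h1 : Δ ^ 2 ∣ D' := by
      rw [hDE]
      exact (pow_dvd_pow Δ hk).mul_right E
    exact not_sq_dvd hd2 rfl he Δ (fun f hf hdeg => (hΔ.2 f hf).2 hdeg)
      (h1.trans (hD'dvd _))
  obtain ⟨W, hW⟩ : D' ∣ Δ := by
    rw [hDE, hEunit.mul_right_dvd]
    calc Δ ^ k ∣ Δ ^ 1 := pow_dvd_pow Δ hk
      _ = Δ := pow_one Δ
  refine ⟨N' * W, ?_⟩
  intro f hf hnd
  have h1 := hD' f hf hnd
  have h2 := isMu_mu hd f hf hnd i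
  have h3 : (C (atForm (N' * W) f - atForm Δ f * mu f i) * hessianDet f :
      MvPolynomial (Fin (m + 1)) ℂ) ∈ jacobianIdeal f := by
    have h4 : (C (atForm (N' * W) f - atForm Δ f * mu f i) * hessianDet f :
        MvPolynomial (Fin (m + 1)) ℂ) =
        C (atForm Δ f) * (monomial i.1 1 - C (mu f i) * hessianDet f) -
        C (atForm W f) * (monomial i.1 (atForm D' f) - C (atForm N' f) * hessianDet f) := by
      rw [mul_sub, mul_sub, C_mul_monomial, C_mul_monomial, mul_one, hW, atForm_mul, atForm_mul,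
        mul_comm (atForm W f) (atForm D' f), C_sub, C_mul, C_mul, C_mul]
      ring
    rw [h4]
    exact Ideal.sub_mem _ (Ideal.mul_mem_left _ _ h2) (Ideal.mul_mem_left _ _ h1)
  by_contra hne
  have hne' : atForm (N' * W) f - atForm Δ f * mu f i ≠ 0 := fun h => hne (sub_eq_zero.1 h).symm
  apply hessianDet_notMem f d hd2 hf hnd
  have := Ideal.mul_mem_left (jacobianIdeal f)
    (C (atForm (N' * W) f - atForm Δ f * mu f i)⁻¹) h3
  rwa [← mul_assoc, ← C_mul, inv_mul_cancel₀ hne', C_1, one_mul] at this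

/-- The smallest exponent is one. -/
theorem isLeast_exponent {n d : ℕ} (hn : 2 ≤ n) (hd : 3 ≤ d) (Δ : CoeffRing n d)
    (hΔ : IsDiscriminant Δ) (i : Expo n (n * (d - 2))) :
    IsLeast {p : ℤ | IsExponent Δ i p} 1 := by
  constructor
  · obtain ⟨Q, hQ⟩ := exists_numerator hn hd Δ hΔ i
    refine ⟨Q, ?_⟩
    intro f hf h0
    rw [zpow_one]
    apply hQ f hf
    rw [← hΔ.2 f hf]
    exact h0
  · rintro p ⟨Q, hQ⟩
    by_contra hp
    push Not at hp
    obtain ⟨k, hk⟩ : ∃ k : ℕ, -p = k := Int.eq_ofNat_of_zero_le (by omega)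
    apply not_isUnit_reduced (n := n) (d := d) (by omega) (by omega) i (Δ ^ k * Q)
    intro f hf hnd
    have h0 : atForm Δ f ≠ 0 := by
      intro h
      exact hnd ((hΔ.2 f hf).1 h)
    have h1 := hQ f hf h0
    have h2 : atForm (Δ ^ k * Q) f = mu f i := by
      rw [atForm_mul, ← h1, ← mul_assoc]
      have h3 : atForm (Δ ^ k) f = atForm Δ f ^ (k : ℤ) := by
        rw [zpow_natCast]
        simp [atForm]
      rw [h3, ← zpow_add₀ h0]
      have h4 : (k : ℤ) + p = 0 := by omega
      rw [h4, zpow_zero, one_mul]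
    rw [h2]
    exact isMu_mu hd f hf hnd i

/-- **The discriminant exponent of the associated-form contravariant is one.**
Let `n ≥ 2` and `d ≥ 3`.  The discriminant `Δ` of forms of degree `d` in `n` variables exists, and
for every such `Δ`: the coefficients `μ_i(f)` of the associated form, `|i| = n (d - 2)`, are well
defined for nondegenerate `f`; for every `i` the smallest integer `p` such that `Δ ^ p μ_i` is a
polynomial function on the space of forms is `1`; and so `p(n, d) = max_i p_i = 1`. -/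
theorem result (n d : ℕ) (hn : 2 ≤ n) (hd : 3 ≤ d) :
    (∃ Δ : CoeffRing n d, IsDiscriminant Δ) ∧
    ∀ Δ : CoeffRing n d, IsDiscriminant Δ →
      (∀ f : MvPolynomial (Fin n) ℂ, f.IsHomogeneous d → atForm Δ f ≠ 0 →
        ∀ i : Expo n (n * (d - 2)), ∃! c : ℂ, IsMu f i c) ∧
      (∀ i : Expo n (n * (d - 2)), IsLeast {p : ℤ | IsExponent Δ i p} 1) ∧
      pMax Δ = 1 := by
  refine ⟨exists_discriminant hn hd, ?_⟩
  intro Δ hΔ
  have hleast := fun i => isLeast_exponent hn hd Δ hΔ i
  refine ⟨?_, hleast, ?_⟩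
  · intro f hf h0 i
    apply existsUnique_mu hd f hf
    intro hdeg
    exact h0 ((hΔ.2 f hf).2 hdeg)
  · have h1 : ∀ i, pIndex Δ i = 1 := fun i => (hleast i).csInf_eq
    have hne : Nonempty (Expo n (n * (d - 2))) :=
      ⟨⟨Finsupp.single ⟨0, by omega⟩ (n * (d - 2)), by rw [Finsupp.degree_single]⟩⟩
    rw [pMax]
    simp only [h1]
    exact ciSup_const

end Pool.Agent.Results.MP_ee1e03_al.DiscriminantExponent
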